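import Mathlib

set_option autoImplicit false
set_option maxHeartbeats 400000

open Matrix

namespace Pool.Agent.Results.MP_55559b_an.NotExposed

/-- the spectrahedral cone defined by the matrices `A i` -/
def Spec {n m : ℕ} (A : Fin n → Matrix (Fin m) (Fin m) ℝ) : Set (Fin n → ℝ) :=
  {x | (∑ i, x i • A i).PosSemidef}

/-- `F` is a face of the cone `K` -/
def IsFace {n : ℕ} (F K : Set (Fin n → ℝ)) : Prop :=
  F ⊆ K ∧ IsClosed F ∧ Convex ℝ F ∧ 0 ∈ F ∧ (∀ x ∈ F, ∀ t : ℝ, 0 ≤ t → t • x ∈ F) ∧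
    ∀ x ∈ K, ∀ y ∈ K, x + y ∈ F → x ∈ F ∧ y ∈ F

def A : Fin 5 → Matrix (Fin 6) (Fin 6) ℝ :=
  ![diagonal ![1, 1, 1, 1, 1, 0], diagonal ![-1, 1, 0, 0, 0, 0], diagonal ![0, 0, -1, 1, 0, 0],
    diagonal ![1, 1, -1, -1, 0, 0] + single 4 5 1 + single 5 4 1, diagonal ![0, 0, 0, 0, 0, 1]]

def Q (x : Fin 5 → ℝ) (v : Fin 6 → ℝ) : ℝ :=
  (x 0 + x 3 - x 1) * v 0 ^ 2 + (x 0 + x 3 + x 1) * v 1 ^ 2 + (x 0 - x 3 - x 2) * v 2 ^ 2 +
    (x 0 - x 3 + x 2) * v 3 ^ 2 + x 0 * v 4 ^ 2 + 2 * x 3 * v 4 * v 5 + x 4 * v 5 ^ 2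

theorem sy (i : Fin 5) : (A i).IsSymm := by
  fin_cases i <;> simp [A, IsSymm, transpose_add, add_assoc]
  exact add_comm _ _

theorem mem (x : Fin 5 → ℝ) : x ∈ Spec A ↔ ∀ v, 0 ≤ Q x v := by
  have : (∑ i, x i • A i).IsHermitian := by
    rw [IsHermitian, conjTranspose_eq_transpose_of_trivial, transpose_sum]
    exact Finset.sum_congr rfl fun i _ => by rw [transpose_smul, sy i]
  rw [Spec, Set.mem_ofPred_eq, posSemidef_iff_dotProduct_mulVec, and_iff_right this]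
  refine forall_congr' fun v => ?_
  have : star v ⬝ᵥ (∑ i, x i • A i) *ᵥ v = Q x v := by
    simp [A, Q, Fin.sum_univ_succ, mulVec, dotProduct, diagonal_apply, single_apply]; ring
  rw [this]

theorem mem' (x : Fin 5 → ℝ) (h0 : 0 ≤ x 0 + x 3 - x 1) (h1 : 0 ≤ x 0 + x 3 + x 1)
    (h2 : 0 ≤ x 0 - x 3 - x 2) (h3 : 0 ≤ x 0 - x 3 + x 2) (h4 : x 0 = 1) (h5 : x 4 = x 3 ^ 2) :
    x ∈ Spec A := by
  rw [mem]; intro v
  have := sq_nonneg (v 4 + x 3 * v 5)
  have : 0 ≤ x 0 * v 4 ^ 2 + 2 * x 3 * v 4 * v 5 + x 4 * v 5 ^ 2 := by rw [h4, h5]; nlinarith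
  have := mul_nonneg h0 (sq_nonneg (v 0)); have := mul_nonneg h1 (sq_nonneg (v 1))
  have := mul_nonneg h2 (sq_nonneg (v 2)); have := mul_nonneg h3 (sq_nonneg (v 3))
  rw [Q]; linarith

theorem out {x : Fin 5 → ℝ} (h : x ∈ Spec A) (h4 : x 4 = 0) :
    0 ≤ x 0 - x 1 ∧ 0 ≤ x 0 + x 1 ∧ 0 ≤ x 0 - x 2 ∧ 0 ≤ x 0 + x 2 := by
  rw [mem] at h
  have h3 : x 3 = 0 := by
    by_contra h3
    have := h ![0, 0, 0, 0, 1, -(x 0 + 1) / (2 * x 3)]
    simp [Q, h4] at this
    field_simp at this; linarith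
  have a := h ![1, 0, 0, 0, 0, 0]; have b := h ![0, 1, 0, 0, 0, 0]
  have c := h ![0, 0, 1, 0, 0, 0]; have d := h ![0, 0, 0, 1, 0, 0]
  simp [Q, h3] at a b c d
  exact ⟨by linarith, b, by linarith, d⟩

theorem lin (a b : ℝ) (h : ∀ s : ℝ, |s| ≤ 1 → 0 ≤ s * a + s ^ 2 * b) : a = 0 := by
  by_contra ha
  have p : 0 < |a| + |b| := by positivity
  have q : 0 < |a| := by positivity
  have := h (-a / (2 * (|a| + |b|))) (by
    rw [abs_div, abs_neg, abs_of_pos (a := 2 * _) (by positivity), div_le_one (by positivity)]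
    linarith [abs_nonneg b])
  have e : -a / (2 * (|a| + |b|)) * a + (-a / (2 * (|a| + |b|))) ^ 2 * b =
      a ^ 2 * (b - 2 * (|a| + |b|)) / (2 * (|a| + |b|)) ^ 2 := by field_simp; ring
  rw [e, le_div_iff₀ (by positivity), zero_mul] at this
  have : 0 < a ^ 2 := by positivity
  nlinarith [le_abs_self b, abs_nonneg b]

theorem result : ∃ (n m : ℕ) (A : Fin n → Matrix (Fin m) (Fin m) ℝ), (∀ i, (A i).IsSymm) ∧
    ∃ F, IsFace F (Spec A) ∧
      ¬∃ P : (Fin n → ℝ) →ₗ[ℝ] (Fin n → ℝ), P ∘ₗ P = P ∧ P '' Spec A = F := by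
  have Ql : ∀ (a b : ℝ) x y v, Q (a • x + b • y) v = a * Q x v + b * Q y v := fun a b x y v => by
    simp only [Q, Pi.add_apply, Pi.smul_apply, smul_eq_mul]; ring
  have t0 : ∀ x ∈ Spec A, 0 ≤ x 4 := fun x h => by
    simpa [Q] using (mem x).1 h ![0, 0, 0, 0, 0, 1]
  refine ⟨5, 6, A, sy, {x | x ∈ Spec A ∧ x 4 = 0}, ⟨fun x h => h.1, ?_, ?_, ?_, ?_, ?_⟩, ?_⟩
  · simp only [mem, Set.ofPred_and, Set.ofPred_forall]
    exact (isClosed_iInter fun v => isClosed_le continuous_const (by unfold Q; fun_prop)).inter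
      (isClosed_eq (by fun_prop) continuous_const)
  · rintro x ⟨hx, hx'⟩ y ⟨hy, hy'⟩ a b ha hb -
    refine ⟨(mem _).2 fun v => ?_, by simp [hx', hy']⟩
    rw [Ql]; exact add_nonneg (mul_nonneg ha ((mem x).1 hx v)) (mul_nonneg hb ((mem y).1 hy v))
  · exact ⟨(mem _).2 fun v => by simp [Q], rfl⟩
  · rintro x ⟨hx, hx'⟩ t ht
    refine ⟨(mem _).2 fun v => ?_, by simp [hx']⟩
    have := Ql t 0 x x v
    rw [zero_smul, add_zero, zero_mul, add_zero] at this
    rw [this]; exact mul_nonneg ht ((mem x).1 hx v)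
  · rintro x hx y hy ⟨-, h⟩
    have := t0 x hx; have := t0 y hy
    simp only [Pi.add_apply] at h
    exact ⟨⟨hx, by linarith⟩, hy, by linarith⟩
  · rintro ⟨P, hP, hK⟩
    have fx : ∀ a b : ℝ, |a| ≤ 1 → |b| ≤ 1 → P ![1, a, b, 0, 0] = ![1, a, b, 0, 0] := by
      intro a b ha hb
      rw [abs_le] at ha hb
      have : (![1, a, b, 0, 0] : Fin 5 → ℝ) ∈ P '' Spec A := by
        rw [hK]
        exact ⟨mem' _ (by simp; linarith) (by simp; linarith) (by simp; linarith)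
          (by simp; linarith) rfl (by simp), rfl⟩
      obtain ⟨y, -, hy⟩ := this
      rw [← hy]; exact LinearMap.congr_fun hP y
    have val : ∀ a b s : ℝ, P ![1, a, b, s, s ^ 2] =
        ![1, a, b, 0, 0] + s • P ![0, 0, 0, 1, 0] + s ^ 2 • P ![0, 0, 0, 0, 1] := by
      intro a b s
      have : (![1, a, b, s, s ^ 2] : Fin 5 → ℝ) = (1 - a - b) • ![1, 0, 0, 0, 0] +
          a • ![1, 1, 0, 0, 0] + b • ![1, 0, 1, 0, 0] + s • ![0, 0, 0, 1, 0] +
          s ^ 2 • ![0, 0, 0, 0, 1] := by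
        ext i; fin_cases i <;> simp
        ring
      rw [this]
      simp only [map_add, map_smul]
      rw [fx 0 0 (by simp) (by simp), fx 1 0 (by simp) (by simp), fx 0 1 (by simp) (by simp)]
      congr 2
      ext i; fin_cases i <;> simp
      ring
    have im : ∀ a b s : ℝ, |a| ≤ 1 + s → |b| ≤ 1 - s → _ := fun a b s ha hb => by
      rw [abs_le] at ha hb
      have : P ![1, a, b, s, s ^ 2] ∈ P '' Spec A := Set.mem_image_of_mem _
        (mem' _ (by simp; linarith) (by simp; linarith) (by simp; linarith) (by simp; linarith)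
          rfl rfl)
      rw [hK, val] at this
      exact out this.1 this.2
    generalize P ![0, 0, 0, 1, 0] = w at im
    generalize P ![0, 0, 0, 0, 1] = u at im
    have e1 := lin (w 0 - 1) (u 0) fun s hs => by
      rw [abs_le] at hs
      have a := (im (1 + s) 0 s (by rw [abs_of_nonneg] <;> linarith) (by simp; linarith)).1
      have b := (im (-(1 + s)) 0 s (by rw [abs_neg, abs_of_nonneg] <;> linarith)
        (by simp; linarith)).2.1
      simp [vecHead, vecTail] at a b; linarith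
    have e2 := lin (w 0 + 1) (u 0) fun s hs => by
      rw [abs_le] at hs
      have a := (im 0 (1 - s) s (by simp; linarith) (by rw [abs_of_nonneg] <;> linarith)).2.2.1
      have b := (im 0 (-(1 - s)) s (by simp; linarith)
        (by rw [abs_neg, abs_of_nonneg] <;> linarith)).2.2.2
      simp [vecHead, vecTail] at a b; linarith
    linarith

end Pool.Agent.Results.MP_55559b_an.NotExposed
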